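import Pool.Agent.Lib_helper6.GUS.Defs
import Pool.Agent.Lib_helper48.GU.Main

open Cardinal Set Filter

universe u

namespace Pool.Agent.GUS6

open Pool.Agent.GU48

variable {K : Type u} {W : Filter K} {κ : Cardinal.{u}}
variable [LinearOrder K]

/-- every function is covered by countably many members of `𝓕` -/
def Catching {β : K} (𝓕 : Set (Iio β → Set (Iio β))) : Prop :=
  ∀ f : Iio β → Iio β, ∃ 𝓒 ⊆ 𝓕, 𝓒.Countable ∧ ∀ ξ, ∃ S ∈ 𝓒, f ξ ∈ S ξ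

/-- Luzin's argument for slaloms -/
lemma luzin [W.NeBot] [CardinalInterFilter W κ] (hS : Setup K W κ) {β : K}
    {𝓕 : Set (Iio β → Set (Iio β))} (h𝓕 : #𝓕 ≤ κ) (hcov : Catching 𝓕) :
    ∃ 𝓖 ⊆ 𝓕, #𝓖 < κ ∧ Catching 𝓖 := by
  haveI : CountableInterFilter W := CardinalInterFilter.toCountableInterFilter W hS.hκ
  rcases h𝓕.lt_or_eq with hlt | heq
  · exact ⟨𝓕, Subset.rfl, hlt, hcov⟩
  by_contra hcon
  push Not at hcon
  obtain ⟨e⟩ : Nonempty (K ≃ 𝓕) := by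
    rw [← Cardinal.eq, heq, hS.hK]
  -- functions not covered by the first `k` members
  have h1 : ∀ k : K, ∃ f : Iio β → Iio β,
      ∀ 𝓒 ⊆ ((fun j : K => (e j : Iio β → Set (Iio β))) '' Iio k),
      𝓒.Countable → ∃ ξ, ∀ S ∈ 𝓒, f ξ ∉ S ξ := by
    intro k
    have h2 := hcon ((fun j : K => (e j : Iio β → Set (Iio β))) '' Iio k)
      (by rintro _ ⟨j, _, rfl⟩; exact (e j).2)
      (Cardinal.mk_image_le.trans_lt (hS.hIio k))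
    unfold Catching at h2
    push Not at h2
    exact h2
  choose f hf using h1
  obtain ⟨C, hC, hev⟩ := capture (κ := κ) hS.hsat (hS.hIio β) (hS.hIio β) f
  have hne : ∀ ξ, (C ξ).Nonempty := by
    intro ξ
    obtain ⟨k, hk⟩ := hev.exists
    exact ⟨_, hk ξ⟩
  have henum : ∀ ξ, ∃ s : ℕ → Iio β, C ξ = range s := fun ξ => (hC ξ).exists_eq_range (hne ξ)
  choose s hs using henum
  choose 𝓒 h𝓒 h𝓒c h𝓒cov using fun n => hcov (fun ξ => s ξ n)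
  -- the countable set of indices
  let J : Set K := {j | ∃ n, (e j : Iio β → Set (Iio β)) ∈ 𝓒 n}
  have hJ : J.Countable := by
    have h2 : (⋃ n, 𝓒 n).Countable := countable_iUnion h𝓒c
    refine countable_of_injective_of_countable_image
      (f := fun j : K => (e j : Iio β → Set (Iio β)))
      (fun a _ b _ hab => e.injective (Subtype.ext hab)) (h2.mono ?_)
    rintro _ ⟨j, ⟨n, hn⟩, rfl⟩
    exact mem_iUnion.2 ⟨n, hn⟩
  have hgt : ∀ᶠ x in W, ∀ j ∈ J, j < x :=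
    (eventually_countable_ball hJ).2 fun j _ => hS.eventually_gt j
  obtain ⟨k, hk1, hk2⟩ := (hgt.and hev).exists
  obtain ⟨ξ, hξ⟩ := hf k (⋃ n, 𝓒 n) (by
    intro g hg
    obtain ⟨n, hn⟩ := mem_iUnion.1 hg
    refine ⟨e.symm ⟨g, h𝓒 n hn⟩, hk1 _ ⟨n, ?_⟩, ?_⟩
    · rw [Equiv.apply_symm_apply]; exact hn
    · simp only [Equiv.apply_symm_apply]) (countable_iUnion h𝓒c)
  have h3 := hk2 ξ
  rw [hs ξ] at h3
  obtain ⟨n, hn⟩ := h3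
  obtain ⟨g, hg, hg2⟩ := h𝓒cov n ξ
  refine hξ g (mem_iUnion.2 ⟨n, hg⟩) ?_
  rw [← hn]
  exact hg2

/-- enumeration of a small catching family by an initial segment of `K` -/
lemma exists_enum [W.NeBot] [CardinalInterFilter W κ] (hS : Setup K W κ) {β : K}
    {𝓕 : Set (Iio β → Set (Iio β))} (h𝓕 : #𝓕 ≤ κ) (hcov : Catching 𝓕) :
    ∃ (G : K → K → Set K) (m : K),
      (∀ j ξ, G j ξ = ∅ ∨ ∃ S ∈ 𝓕, ∃ hξ : ξ < β, G j ξ = Subtype.val '' (S ⟨ξ, hξ⟩)) ∧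
      ∀ f : K → K, ∃ s : ℕ → K, (∀ n, s n < m) ∧
        ∀ ξ < β, f ξ < β → ∃ n, f ξ ∈ G (s n) ξ := by
  classical
  haveI : CountableInterFilter W := CardinalInterFilter.toCountableInterFilter W hS.hκ
  obtain ⟨𝓖, h𝓖𝓕, h𝓖, hcov⟩ := luzin hS h𝓕 hcov
  obtain ⟨i⟩ : Nonempty (𝓖 ↪ K) := by
    have : #𝓖 ≤ #K := by rw [hS.hK]; exact h𝓖.le
    exact this
  obtain ⟨i0⟩ : Nonempty K := by
    obtain ⟨x, _⟩ := (hS.eventually_gt β).exists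
    exact ⟨x⟩
  have hgt : ∀ᶠ x in W, ∀ φ : 𝓖, i φ < x := by
    rw [eventually_cardinal_forall h𝓖]
    exact fun φ => hS.eventually_gt _
  obtain ⟨m, hm1, hm2⟩ := (hgt.and (hS.eventually_gt i0)).exists
  let G : K → K → Set K := fun j ξ =>
    if h : ∃ φ : 𝓖, i φ = j then
      if hξ : ξ < β then Subtype.val '' (h.choose.1 ⟨ξ, hξ⟩) else ∅
    else ∅
  have hG : ∀ (φ : 𝓖) (ξ : K) (hξ : ξ < β), G (i φ) ξ = Subtype.val '' (φ.1 ⟨ξ, hξ⟩) := by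
    intro φ ξ hξ
    have hex : ∃ ψ : 𝓖, i ψ = i φ := ⟨φ, rfl⟩
    have heq : hex.choose = φ := i.injective hex.choose_spec
    simp only [G, dif_pos hex, dif_pos hξ]
    rw [heq]
  refine ⟨G, m, ?_, fun f => ?_⟩
  · intro j ξ
    by_cases h : ∃ φ : 𝓖, i φ = j
    · obtain ⟨φ, rfl⟩ := h
      by_cases hξ : ξ < β
      · exact Or.inr ⟨φ.1, h𝓖𝓕 φ.2, hξ, hG φ ξ hξ⟩
      · left
        simp only [G, dif_neg hξ, dite_eq_ite, ite_self]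
    · left
      simp only [G, dif_neg h]
  obtain ⟨𝓒, h𝓒, hc, hcv⟩ := hcov fun ξ => if h : f ξ < β then ⟨f ξ, h⟩ else ξ
  by_cases hemp : 𝓒.Nonempty
  · obtain ⟨t, ht⟩ := hc.exists_eq_range hemp
    have htm : ∀ n, t n ∈ 𝓖 := fun n => h𝓒 (ht ▸ mem_range_self n)
    refine ⟨fun n => i ⟨t n, htm n⟩, fun n => hm1 _, fun ξ hξ hfξ => ?_⟩
    obtain ⟨g, hg, hg2⟩ := hcv ⟨ξ, hξ⟩
    rw [ht] at hg
    obtain ⟨n, rfl⟩ := hg
    refine ⟨n, ?_⟩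
    rw [hG _ ξ hξ]
    simp only [dif_pos hfξ] at hg2
    exact ⟨_, hg2, rfl⟩
  · refine ⟨fun _ => i0, fun _ => hm2, fun ξ hξ _ => ?_⟩
    obtain ⟨g, hg, _⟩ := hcv ⟨ξ, hξ⟩
    exact absurd ⟨g, hg⟩ hemp

variable [WellFoundedLT K]

/-- almost disjointness of the representing functions -/
lemma not_pos_inter {X : Set K} {θ : Ordinal.{u}} {F : Ordinal.{u} → K → K}
    (hF1 : ∀ α β, α < β → β < θ → ∀ᶠ x in W, x ∈ X → F α x < F β x)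
    (g : K → K) (Z : Set K) (hZ : Z ⊆ X) (α : Ordinal.{u}) (hα : α < θ) (β : Ordinal.{u})
    (hβ : β < θ) (hne : α ≠ β) :
    ¬ Pos W ({x | x ∈ Z ∧ g x = F α x} ∩ {x | x ∈ Z ∧ g x = F β x}) := by
  have key : ∀ α β, α < β → β < θ →
      ¬ Pos W ({x | x ∈ Z ∧ g x = F α x} ∩ {x | x ∈ Z ∧ g x = F β x}) := by
    intro α β hαβ hβ
    rw [not_pos_iff]
    refine (hF1 α β hαβ hβ).mono fun x hx hx' => ?_
    have h1 := hx (hZ hx'.1.1)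
    have h2 : F α x = F β x := hx'.1.2.symm.trans hx'.2.2
    exact h1.ne h2
  rcases lt_or_gt_of_ne hne with h | h
  · exact key α β h hβ
  · rw [inter_comm]
    exact key β α h hα

/-- order of values of representing functions -/
lemma index_lt {X : Set K} {θ : Ordinal.{u}} {F : Ordinal.{u} → K → K}
    (hF1 : ∀ α β, α < β → β < θ → ∀ᶠ x in W, x ∈ X → F α x < F β x)
    {α τ : Ordinal.{u}} (hα : α < θ) {Z : Set K} (hZ : Z ⊆ X) (hZp : Pos W Z)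
    (h : ∀ᶠ x in W, x ∈ Z → F α x < F τ x) : α < τ := by
  rcases lt_trichotomy α τ with h1 | h1 | h1
  · exact h1
  · exfalso
    obtain ⟨x, hx, hx2⟩ := ((pos_iff_frequently.1 hZp).and_eventually h).exists
    have := hx2 hx
    rw [h1] at this
    exact lt_irrefl _ this
  · exfalso
    obtain ⟨x, hx, hx2, hx3⟩ := ((pos_iff_frequently.1 hZp).and_eventually
      (h.and (hF1 τ α h1 hα))).exists
    exact lt_asymm (hx2 hx) (hx3 (hZ hx))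

/-- the scale-free core: the values of `< θ` many slaloms catch all functions -/
theorem exists_catch [W.NeBot] [CardinalInterFilter W κ] (hS : Setup K W κ)
    {X : Set K} (hX : Pos W X) (π : K → K) (hπ : ∀ γ, ∀ᶠ x in W, x ∈ X → γ < π x)
    (𝓕 : ∀ x : K, Set (Iio (π x) → Set (Iio (π x)))) (h𝓕 : ∀ x ∈ X, #(𝓕 x) ≤ κ)
    (hcov : ∀ x ∈ X, Catching (𝓕 x)) {θ : Ordinal.{u}} {F : Ordinal.{u} → K → K}
    (hF1 : ∀ α β, α < β → β < θ → ∀ᶠ x in W, x ∈ X → F α x < F β x)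
    (hF2 : ∀ g : K → K, ∀ Y ⊆ X, Pos W Y → ∃ Z ⊆ Y, Pos W Z ∧
      ∃ α < θ, ∀ᶠ x in W, x ∈ Z → g x = F α x) :
    ∃ G : K → K → K → Set K,
      (∀ x j ξ, G x j ξ = ∅ ∨ ∃ S ∈ 𝓕 x, ∃ hξ : ξ < π x,
        G x j ξ = Subtype.val '' (S ⟨ξ, hξ⟩)) ∧
      ∃ Z ⊆ X, Pos W Z ∧ ∃ τ < θ, ∀ f : K → K, ∃ A : Set Ordinal.{u}, A ⊆ Iio τ ∧
        A.Countable ∧ ∀ ξ, ∃ α ∈ A, Pos W {x | x ∈ Z ∧ f ξ ∈ G x (F α x) ξ} := by
  classical
  haveI : CountableInterFilter W := CardinalInterFilter.toCountableInterFilter W hS.hκ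
  have hsat := hS.hsat
  haveI : Nonempty K := ⟨hX.nonempty.some⟩
  have hG : ∀ x : K, ∃ (G : K → K → Set K) (m : K),
      (∀ j ξ, G j ξ = ∅ ∨ ∃ S ∈ 𝓕 x, ∃ hξ : ξ < π x, G j ξ = Subtype.val '' (S ⟨ξ, hξ⟩)) ∧
      (x ∈ X → ∀ f : K → K, ∃ s : ℕ → K,
        (∀ n, s n < m) ∧ ∀ ξ < π x, f ξ < π x → ∃ n, f ξ ∈ G (s n) ξ) := by
    intro x
    by_cases hx : x ∈ X
    · obtain ⟨G, m, h1, h2⟩ := exists_enum hS (h𝓕 x hx) (hcov x hx)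
      exact ⟨G, m, h1, fun _ => h2⟩
    · exact ⟨fun _ _ => ∅, x, fun _ _ => Or.inl rfl, fun h => absurd h hx⟩
  choose G μ hG1 hGμ using hG
  obtain ⟨Z, hZX, hZp, τ, hτ, hZτ⟩ := hF2 μ X Subset.rfl hX
  refine ⟨G, hG1, Z, hZX, hZp, τ, hτ, fun f => ?_⟩
  have h1 : ∀ x : K, ∃ s : ℕ → K, x ∈ X → (∀ n, s n < μ x) ∧
      ∀ ξ < π x, f ξ < π x → ∃ n, f ξ ∈ G x (s n) ξ := by
    intro x
    by_cases hx : x ∈ X
    · obtain ⟨s, hs⟩ := hGμ x hx f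
      exact ⟨s, fun _ => hs⟩
    · exact ⟨fun _ => x, fun h => absurd h hx⟩
  choose s hs using h1
  let A : ℕ → Set Ordinal.{u} := fun n =>
    {α | α ∈ Iio τ ∧ Pos W {x | x ∈ Z ∧ s x n = F α x}}
  have hA : ∀ n, (A n).Countable := by
    intro n
    refine countable_pos_of_almostDisjoint hsat (fun α => {x | x ∈ Z ∧ s x n = F α x})
      (Iio τ) ?_
    intro α hα α' hα' hne
    exact not_pos_inter hF1 (fun x => s x n) Z hZX α (lt_trans hα hτ) α' (lt_trans hα' hτ) hne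
  refine ⟨⋃ n, A n, ?_, countable_iUnion hA, ?_⟩
  · intro α hα
    obtain ⟨n, hn⟩ := mem_iUnion.1 hα
    exact hn.1
  intro ξ
  have hZ' : Pos W {x | x ∈ Z ∧ ξ < π x ∧ f ξ < π x ∧ μ x = F τ x} := by
    refine hZp.of_eventually ?_
    filter_upwards [hπ ξ, hπ (f ξ), hZτ] with x h1 h2 h3 h4
    exact ⟨h4, h1 (hZX h4), h2 (hZX h4), h3 h4⟩
  have hsub : {x | x ∈ Z ∧ ξ < π x ∧ f ξ < π x ∧ μ x = F τ x} ⊆
      ⋃ n, {x | (x ∈ Z ∧ ξ < π x ∧ f ξ < π x ∧ μ x = F τ x) ∧ f ξ ∈ G x (s x n) ξ} := by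
    rintro x ⟨h1, h2, h3, h4⟩
    obtain ⟨n, hn⟩ := (hs x (hZX h1)).2 ξ h2 h3
    exact mem_iUnion.2 ⟨n, ⟨h1, h2, h3, h4⟩, hn⟩
  obtain ⟨n, hn⟩ := exists_pos_of_pos_iUnion_nat (hZ'.mono hsub)
  obtain ⟨Z3, hZ3, hZ3p, α, hα, hZ3α⟩ := hF2 (fun x => s x n) _ (by
    intro x hx
    exact hZX hx.1.1) hn
  have hZ3X : Z3 ⊆ X := fun x hx => hZX (hZ3 hx).1.1
  have hατ : α < τ := by
    refine index_lt hF1 hα hZ3X hZ3p (hZ3α.mono fun x hx hxZ => ?_)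
    have h1 := hZ3 hxZ
    have h2 := (hs x (hZX h1.1.1)).1 n
    rw [h1.1.2.2.2, hx hxZ] at h2
    exact h2
  refine ⟨α, mem_iUnion.2 ⟨n, hατ, ?_⟩, ?_⟩
  · refine hZ3p.of_eventually (hZ3α.mono fun x hx hx3 => ⟨(hZ3 hx3).1.1, hx hx3⟩)
  · refine hZ3p.of_eventually (hZ3α.mono fun x hx hx3 => ⟨(hZ3 hx3).1.1, ?_⟩)
    rw [← hx hx3]
    exact (hZ3 hx3).2

end Pool.Agent.GUS6
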