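import Pool.Agent.Lib_helper48.GU.Defs

/-!
# Slaloms and dominating families for generic ultrapowers (MP_5b3e48_lc): definitions
-/

open Cardinal Set Filter

universe u

namespace Pool.Agent.GUS6

open Pool.Agent.GU48

/-- `β` is a regular uncountable cardinal (as an ordinal): `β` is uncountable and every function
from an ordinal `η < β` into `β` is bounded by an element of `β`. -/
def RegularUncountable {K : Type u} [LinearOrder K] (β : K) : Prop :=
  ¬ (Iio β).Countable ∧ ∀ η < β, ∀ f : Iio η → Iio β, ∃ c : Iio β, ∀ ξ, f ξ < c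

/-- There are at most `κ` slaloms on `β`, of width at most `|ρ(ξ)|` at `ξ < β`, such that every
function `β → β` is covered by countably many of them. -/
def SlalomCover {K : Type u} [LinearOrder K] (κ : Cardinal.{u}) (ρ : K → K) (β : K) : Prop :=
  ∃ 𝓕 : Set (Iio β → Set (Iio β)), #𝓕 ≤ κ ∧ (∀ S ∈ 𝓕, ∀ ξ : Iio β, #(S ξ) ≤ #(Iio (ρ ξ))) ∧
    ∀ f : Iio β → Iio β, ∃ 𝓒 ⊆ 𝓕, 𝓒.Countable ∧ ∀ ξ, ∃ S ∈ 𝓒, f ξ ∈ S ξ

/-- There is a family `T` of at most `κ` sets such that every set in `W` has an unbounded subset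
all of whose proper initial segments belong to `T`. -/
def FewInitialSegments {K : Type u} [LinearOrder K] (κ : Cardinal.{u}) (W : Filter K) : Prop :=
  ∃ T : Set (Set K), #T ≤ κ ∧ ∀ X ∈ W, ∃ Y ⊆ X, (∀ b, ∃ y ∈ Y, b ≤ y) ∧ ∀ b, Y ∩ Iio b ∈ T

/-- The dominating number of `β` is at most `κ`: there are at most `κ` functions `β → β` such
that every function `β → β` is eventually below one of them. -/
def DominatingNumberLe {K : Type u} [LinearOrder K] (κ : Cardinal.{u}) (β : K) : Prop :=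
  ∃ 𝓕 : Set (Iio β → Iio β), #𝓕 ≤ κ ∧
    ∀ f : Iio β → Iio β, ∃ g ∈ 𝓕, ∃ η : Iio β, ∀ ξ, η ≤ ξ → f ξ ≤ g ξ

/-- For some `μ < κ`, every family of fewer than `κ` functions `β → β` is countably covered by
some `μ` functions: each member of the family is covered by the graphs of countably many of
these. -/
def LocalCover {K : Type u} [LinearOrder K] (κ : Cardinal.{u}) (β : K) : Prop :=
  ∃ μ < κ, ∀ A : Set (Iio β → Iio β), #A < κ → ∃ B : Set (Iio β → Iio β), #B ≤ μ ∧
    ∀ f ∈ A, ∃ 𝓒 ⊆ B, 𝓒.Countable ∧ ∀ ξ, ∃ g ∈ 𝓒, g ξ = f ξ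

/-- For some `μ < κ`, every family of fewer than `κ` functions `β → β` is dominated by some `μ`
functions: each member of the family is eventually below one of these. -/
def LocalDominating {K : Type u} [LinearOrder K] (κ : Cardinal.{u}) (β : K) : Prop :=
  ∃ μ < κ, ∀ A : Set (Iio β → Iio β), #A < κ → ∃ B : Set (Iio β → Iio β), #B ≤ μ ∧
    ∀ f ∈ A, ∃ g ∈ B, ∃ η : Iio β, ∀ ξ, η ≤ ξ → f ξ ≤ g ξ

/-- `W` is normal: every function which is regressive on a positive set is constant on a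
positive subset. -/
def IsNormal {K : Type u} [LinearOrder K] (W : Filter K) : Prop :=
  ∀ (h : K → K) (Y : Set K), Pos W Y → (∀ x ∈ Y, h x < x) → ∃ v, Pos W {x | x ∈ Y ∧ h x = v}

/-- `P` forces that `j_W(κ)` is not a regular cardinal: the conditions `X` that force
`j_W(κ) = θ` for some ordinal `θ` which is not a regular cardinal are dense below `P`. -/
def ForcesImageNotRegular {K : Type u} [LinearOrder K] (W : Filter K) (P : Set K) : Prop :=
  ∀ Y ⊆ P, Pos W Y → ∃ X ⊆ Y, Pos W X ∧ ∃ θ : Ordinal.{u},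
    ForcesImageEq W X θ ∧ ∀ c : Cardinal.{u}, c.IsRegular → θ ≠ c.ord

end Pool.Agent.GUS6
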