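import Pool.Agent.Lib_helper6.GUS.Catch

open Cardinal Set Filter

universe u

namespace Pool.Agent.GUS6

open Pool.Agent.GU48

variable {K : Type u} {W : Filter K} {κ : Cardinal.{u}}
variable [LinearOrder K]

/-- `Y` forces that `[π] = κ` -/
def Incomp (W : Filter K) (π : K → K) (Y : Set K) : Prop :=
  (∀ γ, ∀ᶠ x in W, x ∈ Y → γ < π x) ∧
    ∀ (h : K → K), ∀ Z ⊆ Y, Pos W Z → (∀ x ∈ Z, h x < π x) → ∃ v, Pos W {x | x ∈ Z ∧ h x = v}

lemma Incomp.mono {π : K → K} {Y Z : Set K} (h : Incomp W π Y) (hZ : Z ⊆ Y) :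
    Incomp W π Z :=
  ⟨fun γ => (h.1 γ).mono fun _ hx hxZ => hx (hZ hxZ), fun g Z' hZ' => h.2 g Z' (hZ'.trans hZ)⟩

lemma incomp_id [CardinalInterFilter W κ] (hS : Setup K W κ) (hW : IsNormal W) (Y : Set K) :
    Incomp W id Y :=
  ⟨fun γ => (hS.eventually_gt γ).mono fun _ hx _ => hx, fun h Z _ hZp hZ => hW h Z hZp hZ⟩

variable [WellFoundedLT K]

lemma exists_incomp [W.NeBot] [CardinalInterFilter W κ] (hS : Setup K W κ) {Y : Set K}
    (hY : Pos W Y) : ∃ X ⊆ Y, Pos W X ∧ ∃ π, Incomp W π X := by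
  haveI : CountableInterFilter W := CardinalInterFilter.toCountableInterFilter W hS.hκ
  obtain ⟨X, hXY, hXp, θ, F, hF1, hF2⟩ := exists_forcesImageEq hS.hsat hY
  have hne : {α : Ordinal.{u} | α < θ ∧ ∃ Z ⊆ X, Pos W Z ∧ ∀ γ, ∀ᶠ x in W, x ∈ Z →
      γ < F α x}.Nonempty := by
    obtain ⟨Z, hZ, hZp, α, hα, hZα⟩ := hF2 id X Subset.rfl hXp
    refine ⟨α, hα, Z, hZ, hZp, fun γ => ?_⟩
    filter_upwards [hZα, hS.eventually_gt γ] with x h1 h2 hx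
    rw [← h1 hx]
    exact h2
  obtain ⟨α, ⟨hα, Z, hZX, hZp, hZ⟩, hmin⟩ :=
    WellFounded.has_min (wellFounded_lt (α := Ordinal.{u})) _ hne
  refine ⟨Z, hZX.trans hXY, hZp, F α, hZ, ?_⟩
  intro h Z1 hZ1 hZ1p hlt
  obtain ⟨Z2, hZ2, hZ2p, β, hβ, hZ2β⟩ := hF2 h Z1 (hZ1.trans hZX) hZ1p
  have hβα : β < α := by
    refine index_lt hF1 hβ ((hZ2.trans hZ1).trans hZX) hZ2p (hZ2β.mono fun x hx hxZ => ?_)
    rw [← hx hxZ]
    exact hlt x (hZ2 hxZ)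
  have hnot := hmin β
  have h2 : ¬ ∀ γ, ∀ᶠ x in W, x ∈ Z2 → γ < F β x := by
    intro hcon
    exact hnot ⟨hβ, Z2, (hZ2.trans hZ1).trans hZX, hZ2p, hcon⟩ hβα
  push Not at h2
  obtain ⟨γ, hγ⟩ := h2
  have hγ' : Pos W {x | x ∈ Z2 ∧ F β x ≤ γ} := by
    rw [pos_iff_frequently]
    exact hγ
  obtain ⟨δ, hδ⟩ := (hS.eventually_gt γ).exists
  have hsub : {x | x ∈ Z2 ∧ F β x ≤ γ} ⊆ ⋃ v : Iio δ, {x | x ∈ Z2 ∧ F β x = v} := by
    rintro x ⟨h1, h3⟩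
    exact mem_iUnion.2 ⟨⟨F β x, h3.trans_lt hδ⟩, h1, rfl⟩
  obtain ⟨v, hv⟩ := exists_pos_of_pos_iUnion (hS.hIio δ) (hγ'.mono hsub)
  refine ⟨v, hv.of_eventually (hZ2β.mono fun x hx hxZ => ⟨hZ2 hxZ.1, ?_⟩)⟩
  rw [hx hxZ.1]
  exact hxZ.2

omit [WellFoundedLT K] in
/-- fewer than `κ` functions below `π` are bounded by one ordinal -/
lemma Incomp.exists_bound [W.NeBot] [CardinalInterFilter W κ] (hS : Setup K W κ) {π : K → K}
    {Z : Set K} (hπ : Incomp W π Z) {ι : Type u} (hι : #ι < κ) (f : K → ι → K)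
    (hf : ∀ x ∈ Z, ∀ i, f x i < π x) : ∃ γ : K, ∀ᶠ x in W, x ∈ Z → ∀ i, f x i < γ := by
  haveI : CountableInterFilter W := CardinalInterFilter.toCountableInterFilter W hS.hκ
  have hL : ∀ i, {v | Pos W {x | x ∈ Z ∧ f x i = v}}.Countable :=
    fun i => countable_values hS.hsat Z fun x => f x i
  have h1 : ∀ i, ∀ᶠ x in W, x ∈ Z → f x i ∈ {v | Pos W {x | x ∈ Z ∧ f x i = v}} := by
    intro i
    by_contra hcon
    have hpos : Pos W {x | x ∈ Z ∧ f x i ∉ {v | Pos W {x | x ∈ Z ∧ f x i = v}}} := by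
      rw [pos_iff_frequently]
      refine (not_eventually.1 hcon).mono fun x hx => ?_
      rw [Classical.not_imp] at hx
      exact hx
    obtain ⟨v, hv⟩ := hπ.2 (fun x => f x i) _ (fun x hx => hx.1) hpos (fun x hx => hf x hx.1 i)
    obtain ⟨x, ⟨hxZ, hx1⟩, hx2⟩ := hv.nonempty
    apply hx1
    have hx2' : f x i = v := hx2
    rw [hx2']
    exact hv.mono fun y hy => ⟨hy.1.1, hy.2⟩
  have h2 : ∀ i, ∃ γ, ∀ v ∈ {v | Pos W {x | x ∈ Z ∧ f x i = v}}, v < γ := by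
    intro i
    have : ∀ᶠ y in W, ∀ v ∈ {v | Pos W {x | x ∈ Z ∧ f x i = v}}, v < y :=
      (eventually_countable_ball (hL i)).2 fun v _ => hS.eventually_gt v
    exact this.exists
  choose γ hγ using h2
  have h3 : ∀ᶠ y in W, ∀ i, γ i < y := by
    rw [eventually_cardinal_forall hι]
    exact fun i => hS.eventually_gt _
  obtain ⟨δ, hδ⟩ := h3.exists
  refine ⟨δ, ?_⟩
  have h4 : ∀ᶠ x in W, ∀ i, x ∈ Z → f x i ∈ {v | Pos W {x | x ∈ Z ∧ f x i = v}} := by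
    rw [eventually_cardinal_forall hι]
    exact h1
  filter_upwards [h4] with x hx hxZ i
  exact (hγ i _ (hx i hxZ)).trans (hδ i)

omit [WellFoundedLT K] in
/-- there is no cofinal sequence of length `< κ` below `π x` -/
lemma Incomp.not_cofinal [W.NeBot] [CardinalInterFilter W κ] (hS : Setup K W κ) {π : K → K}
    {Z : Set K} (hπ : Incomp W π Z) (hZ : Pos W Z) {ι : Type u} (hι : #ι < κ) (f : K → ι → K)
    (hf : ∀ x ∈ Z, ∀ i, f x i < π x) (hcof : ∀ x ∈ Z, ∀ c < π x, ∃ i, c ≤ f x i) : False := by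
  obtain ⟨γ, hγ⟩ := hπ.exists_bound hS hι f hf
  obtain ⟨x, hxZ, hx1, hx2⟩ := ((pos_iff_frequently.1 hZ).and_eventually
    (hγ.and (hπ.1 γ))).exists
  obtain ⟨i, hi⟩ := hcof x hxZ γ (hx2 hxZ)
  exact absurd (hx1 hxZ i) (not_lt.2 hi)

omit [WellFoundedLT K] in
/-- almost all values of `π` are regular uncountable cardinals -/
theorem Incomp.regular [W.NeBot] [CardinalInterFilter W κ] (hS : Setup K W κ) {π : K → K}
    {Y : Set K} (hπ : Incomp W π Y) : ∀ᶠ x in W, x ∈ Y → RegularUncountable (π x) := by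
  classical
  haveI : CountableInterFilter W := CardinalInterFilter.toCountableInterFilter W hS.hκ
  have hω : #(ULift.{u} ℕ) < κ := by simpa using hS.hκ
  have hnull1 : ¬ Pos W {x | x ∈ Y ∧ (Iio (π x)).Countable} := by
    intro hp
    obtain ⟨y0, _⟩ := hp.nonempty
    have hp2 : Pos W {x | (x ∈ Y ∧ (Iio (π x)).Countable) ∧ y0 < π x} := by
      refine hp.of_eventually ((hπ.1 y0).mono fun x hx hx2 => ⟨hx2, hx hx2.1⟩)
    have h1 : ∀ x : K, ∃ s : ℕ → K, ((x ∈ Y ∧ (Iio (π x)).Countable) ∧ y0 < π x) →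
        Iio (π x) = range s := by
      intro x
      by_cases hx : (x ∈ Y ∧ (Iio (π x)).Countable) ∧ y0 < π x
      · obtain ⟨s, hs⟩ := hx.1.2.exists_eq_range ⟨y0, hx.2⟩
        exact ⟨s, fun _ => hs⟩
      · exact ⟨fun _ => y0, fun h => absurd h hx⟩
    choose s hs using h1
    refine Incomp.not_cofinal hS (hπ.mono fun x (hx : (x ∈ Y ∧ _) ∧ _) => hx.1.1) hp2 hω
      (fun x n => s x n.down) ?_ ?_
    · intro x hx n
      have : s x n.down ∈ Iio (π x) := by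
        rw [hs x hx]
        exact mem_range_self _
      exact this
    · intro x hx c hc
      have : c ∈ Iio (π x) := hc
      rw [hs x hx] at this
      obtain ⟨n, hn⟩ := this
      exact ⟨⟨n⟩, hn.symm.le⟩
  have hnull2 : ¬ Pos W {x | x ∈ Y ∧ ¬ ∀ η < π x, ∀ f : Iio η → Iio (π x),
      ∃ c : Iio (π x), ∀ ξ, f ξ < c} := by
    intro hp
    have h1 : ∀ x : K, ∃ η : K, x ∈ {x | x ∈ Y ∧ ¬ ∀ η < π x, ∀ f : Iio η → Iio (π x),
        ∃ c : Iio (π x), ∀ ξ, f ξ < c} → η < π x ∧ ∃ f : Iio η → Iio (π x),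
          ∀ c : Iio (π x), ∃ ξ, c ≤ f ξ := by
      intro x
      by_cases hx : x ∈ {x | x ∈ Y ∧ ¬ ∀ η < π x, ∀ f : Iio η → Iio (π x),
        ∃ c : Iio (π x), ∀ ξ, f ξ < c}
      · have := hx.2
        push Not at this
        obtain ⟨η, hη, f, hf⟩ := this
        exact ⟨η, fun _ => ⟨hη, f, hf⟩⟩
      · exact ⟨x, fun h => absurd h hx⟩
    choose η hη using h1
    obtain ⟨e, he⟩ := hπ.2 η _ (fun x hx => hx.1) hp (fun x hx => (hη x hx).1)
    have h2 : ∀ x : K, ∃ f : Iio e → K, x ∈ {x | x ∈ {x | x ∈ Y ∧ ¬ ∀ η < π x,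
        ∀ f : Iio η → Iio (π x), ∃ c : Iio (π x), ∀ ξ, f ξ < c} ∧ η x = e} →
          (∀ i, f i < π x) ∧ ∀ c < π x, ∃ i, c ≤ f i := by
      intro x
      by_cases hx : x ∈ {x | x ∈ {x | x ∈ Y ∧ ¬ ∀ η < π x,
        ∀ f : Iio η → Iio (π x), ∃ c : Iio (π x), ∀ ξ, f ξ < c} ∧ η x = e}
      · obtain ⟨hx1, rfl⟩ := hx
        obtain ⟨f, hf⟩ := (hη x hx1).2
        refine ⟨fun i => f i, fun _ => ⟨fun i => (f i).2, fun c hc => ?_⟩⟩
        obtain ⟨ξ, hξ⟩ := hf ⟨c, hc⟩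
        exact ⟨ξ, hξ⟩
      · exact ⟨fun i => i, fun h => absurd h hx⟩
    choose f hf using h2
    exact Incomp.not_cofinal hS (hπ.mono fun x hx => hx.1.1) he (hS.hIio e) f
      (fun x hx i => (hf x hx).1 i) (fun x hx c hc => (hf x hx).2 c hc)
  rw [not_pos_iff] at hnull1 hnull2
  filter_upwards [hnull1, hnull2] with x h1 h2 hx
  refine ⟨fun h => h1 ⟨hx, h⟩, ?_⟩
  by_contra hcon
  exact h2 ⟨hx, hcon⟩

end Pool.Agent.GUS6
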