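import Pool.Agent.Lib_helper6.GUS.Slalom
import Pool.Agent.Lib_helper6.GUS.Incomp
import Pool.Agent.Lib_helper48.GU.Powers

open Cardinal Set Filter

universe u

namespace Pool.Agent.GUS6

open Pool.Agent.GU48

variable {K : Type u} {W : Filter K} {κ : Cardinal.{u}}
variable [LinearOrder K] [WellFoundedLT K]

/-- the bounded slaloms of a dominating family on a regular `β` -/
lemma exists_bounded_slaloms [CardinalInterFilter W κ] (hS : Setup K W κ) {β : K}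
    (hreg : RegularUncountable β) (hd : DominatingNumberLe κ β) :
    ∃ 𝓕 : Set (Iio β → Set (Iio β)), #𝓕 ≤ κ ∧ Catching 𝓕 ∧
      ∀ S ∈ 𝓕, ∀ ξ, ∃ b : Iio β, ∀ v ∈ S ξ, v ≤ b := by
  classical
  obtain ⟨𝓓, h𝓓, hdom⟩ := hd
  refine ⟨range fun p : 𝓓 × Iio β => fun ξ => Iic (max (p.1.1 ξ) p.2), ?_, ?_, ?_⟩
  · refine Cardinal.mk_range_le.trans ?_
    rw [Cardinal.mk_prod, Cardinal.lift_id, Cardinal.lift_id]
    exact (mul_le_mul' h𝓓 (hS.hIio β).le).trans (Cardinal.mul_eq_self hS.hκ.le).le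
  · intro f
    obtain ⟨g, hg, η, hη⟩ := hdom f
    obtain ⟨c, hc⟩ := hreg.2 η η.2 (fun ξ : Iio (η : K) => f ⟨ξ, lt_trans ξ.2 η.2⟩)
    refine ⟨{fun ξ => Iic (max (g ξ) c)}, ?_, countable_singleton _, ?_⟩
    · rintro _ rfl
      exact ⟨(⟨g, hg⟩, c), rfl⟩
    · intro ξ
      refine ⟨_, rfl, ?_⟩
      rcases lt_or_ge ξ η with h | h
      · exact le_max_of_le_right (hc ⟨ξ, h⟩).le
      · exact le_max_of_le_left (hη ξ h)
  · rintro _ ⟨p, rfl⟩ ξ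
    exact ⟨max (p.1.1 ξ) p.2, fun v hv => hv⟩

/-- a condition forcing that `[π] = κ` has a small catching family of bounded slaloms in the
generic ultrapower cannot force `j_W(κ)` to be a regular cardinal. -/
theorem not_regular_of_bounded_slaloms [W.NeBot] [CardinalInterFilter W κ] (hS : Setup K W κ)
    {X : Set K} (hX : Pos W X) {π : K → K} (hπ : Incomp W π X)
    (hd : ∀ x ∈ X, ∃ 𝓕 : Set (Iio (π x) → Set (Iio (π x))), #𝓕 ≤ κ ∧ Catching 𝓕 ∧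
      ∀ S ∈ 𝓕, ∀ ξ, ∃ b : Iio (π x), ∀ v ∈ S ξ, v ≤ b) {θ : Ordinal.{u}}
    (hF : ForcesImageEq W X θ) (c : Cardinal.{u}) (hreg : c.IsRegular) : θ ≠ c.ord := by
  classical
  haveI : CountableInterFilter W := CardinalInterFilter.toCountableInterFilter W hS.hκ
  rintro rfl
  obtain ⟨F, hF1, hF2⟩ := hF
  have hsat := hS.hsat
  haveI : Nonempty K := ⟨hX.nonempty.some⟩
  have hc : ℵ₀ < c := aleph0_lt_of_forces hS hX hF2
  have hfam : ∀ x : K, ∃ 𝓕 : Set (Iio (π x) → Set (Iio (π x))), x ∈ X → #𝓕 ≤ κ ∧ Catching 𝓕 ∧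
      ∀ S ∈ 𝓕, ∀ ξ, ∃ b : Iio (π x), ∀ v ∈ S ξ, v ≤ b := by
    intro x
    by_cases hx : x ∈ X
    · obtain ⟨𝓕, h⟩ := hd x hx
      exact ⟨𝓕, fun _ => h⟩
    · exact ⟨∅, fun h => absurd h hx⟩
  choose 𝓕 h𝓕 using hfam
  obtain ⟨G, hG, Z, hZX, hZp, τ, hτ, hcatch⟩ := exists_catch hS hX π hπ.1 𝓕
    (fun x hx => (h𝓕 x hx).1) (fun x hx => (h𝓕 x hx).2.1) hF1 hF2
  -- bounds of the slaloms
  have hb : ∀ x j ξ, ∃ b : K, x ∈ X → ξ < π x → b < π x ∧ ∀ v ∈ G x j ξ, v ≤ b := by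
    intro x j ξ
    by_cases hx : x ∈ X ∧ ξ < π x
    swap
    · exact ⟨ξ, fun h1 h2 => absurd ⟨h1, h2⟩ hx⟩
    rcases hG x j ξ with h | ⟨S, hS1, hξ, h⟩
    · exact ⟨ξ, fun _ h2 => ⟨h2, fun v hv => by rw [h] at hv; exact absurd hv (notMem_empty v)⟩⟩
    · obtain ⟨b, hb⟩ := (h𝓕 x hx.1).2.2 S hS1 ⟨ξ, hξ⟩
      refine ⟨b, fun _ _ => ⟨b.2, ?_⟩⟩
      rw [h]
      rintro _ ⟨v, hv, rfl⟩
      exact hb v hv
  choose b hb using hb
  -- the bound of the likely values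
  have hB : ∀ α ξ, ∃ B : K, ∀ v, Pos W {x | x ∈ Z ∧ b x (F α x) ξ = v} → v ≤ B := by
    intro α ξ
    have hcount : {v | Pos W {x | x ∈ Z ∧ b x (F α x) ξ = v}}.Countable :=
      countable_values hsat Z _
    have : ∀ᶠ y in W, ∀ v ∈ {v | Pos W {x | x ∈ Z ∧ b x (F α x) ξ = v}}, v < y :=
      (eventually_countable_ball hcount).2 fun v _ => hS.eventually_gt v
    obtain ⟨y, hy⟩ := this.exists
    exact ⟨y, fun v hv => (hy v hv).le⟩
  choose B hB using hB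
  have hcatch2 : ∀ f : K → K, ∃ A : Set Ordinal.{u}, A ⊆ Iio τ ∧
      A.Countable ∧ ∀ ξ, ∃ α ∈ A, f ξ ≤ B α ξ := by
    intro f
    obtain ⟨A, hA1, hA2, hA3⟩ := hcatch f
    refine ⟨A, hA1, hA2, fun ξ => ?_⟩
    obtain ⟨α, hα, hp⟩ := hA3 ξ
    refine ⟨α, hα, ?_⟩
    have hp2 : Pos W {x | (x ∈ Z ∧ f ξ ∈ G x (F α x) ξ) ∧ ξ < π x} :=
      hp.of_eventually ((hπ.1 ξ).mono fun x hx hx2 => ⟨hx2, hx (hZX hx2.1)⟩)
    obtain ⟨v, hv⟩ := hπ.2 (fun x => b x (F α x) ξ) _ (fun x hx => hZX hx.1.1) hp2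
      (fun x hx => (hb x _ ξ (hZX hx.1.1) hx.2).1)
    obtain ⟨x, hx1, hx2⟩ := hv.nonempty
    have h1 : f ξ ≤ v := by
      rw [← hx2]
      exact (hb x _ ξ (hZX hx1.1.1) hx1.2).2 _ hx1.1.2
    exact h1.trans (hB α ξ v (hv.mono fun x hx => ⟨hx.1.1.1, hx.2⟩))
  -- the likely ordinals
  have hcount : ∀ α, {ν | ν ∈ Iio c.ord ∧ Pos W {x | x ∈ X ∧ B α x = F ν x}}.Countable := by
    intro α
    refine countable_pos_of_almostDisjoint hsat (fun ν => {x | x ∈ X ∧ B α x = F ν x})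
      (Iio c.ord) ?_
    intro ν hν ν' hν' hne
    exact not_pos_inter hF1 (fun x => B α x) X Subset.rfl ν hν ν' hν' hne
  have h0 : (0 : Ordinal.{u}) < c.ord := by
    rw [Cardinal.lt_ord]
    simpa using aleph0_pos.trans hc
  have hen : ∀ α, ∃ s : ℕ → Ordinal.{u}, (∀ n, s n < c.ord) ∧
      {ν | ν ∈ Iio c.ord ∧ Pos W {x | x ∈ X ∧ B α x = F ν x}} ⊆ range s := by
    intro α
    by_cases h : {ν | ν ∈ Iio c.ord ∧ Pos W {x | x ∈ X ∧ B α x = F ν x}}.Nonempty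
    · obtain ⟨s, hs⟩ := (hcount α).exists_eq_range h
      refine ⟨s, fun n => ?_, hs.subset⟩
      have : s n ∈ {ν | ν ∈ Iio c.ord ∧ Pos W {x | x ∈ X ∧ B α x = F ν x}} := by
        rw [hs]
        exact mem_range_self n
      exact this.1
    · rw [not_nonempty_iff_eq_empty] at h
      exact ⟨fun _ => 0, fun _ => h0, by rw [h]; exact empty_subset _⟩
  choose s hs1 hs2 using hen
  -- the bound below `c.ord`
  obtain ⟨δ, hδ, hδ2⟩ : ∃ δ < c.ord, ∀ α < τ, ∀ n, s α n < δ := by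
    have hι : #(τ.ToType × ULift.{u} ℕ) < c.ord.cof := by
      rw [hreg.cof_ord, Cardinal.mk_prod]
      simp only [Cardinal.lift_id, Cardinal.mk_toType, Cardinal.mk_uLift, Cardinal.mk_eq_aleph0,
        Cardinal.lift_aleph0]
      exact Cardinal.mul_lt_of_lt hc.le (Cardinal.lt_ord.1 hτ) hc
    let e : Iio τ ≃o τ.ToType := Ordinal.ToType.mk
    have hlim : ∀ o < c.ord, Order.succ o < c.ord := by
      intro o ho
      exact (Cardinal.isSuccLimit_ord hc.le).succ_lt ho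
    refine ⟨⨆ p : τ.ToType × ULift.{u} ℕ, Order.succ (s (e.symm p.1) p.2.down),
      Ordinal.iSup_lt_ord hι fun p => hlim _ (hs1 _ _), ?_⟩
    intro α hα n
    have := Ordinal.le_iSup (fun p : τ.ToType × ULift.{u} ℕ =>
      Order.succ (s (e.symm p.1) p.2.down)) (e ⟨α, hα⟩, ⟨n⟩)
    simp only [OrderIso.symm_apply_apply] at this
    exact (Order.lt_succ _).trans_le this
  obtain ⟨A, hAτ, hAc, hA⟩ := hcatch2 (F δ)
  haveI : Countable A := hAc.to_subtype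
  have hsub : X ⊆ ⋃ p : A, {x | x ∈ X ∧ F δ x ≤ B p x} := by
    intro x hx
    obtain ⟨α, hα, hα2⟩ := hA x
    exact mem_iUnion.2 ⟨⟨α, hα⟩, hx, hα2⟩
  obtain ⟨α, hα⟩ := exists_pos_of_pos_iUnion_nat (hX.mono hsub)
  obtain ⟨Z', hZ', hZ'p, ν, hν, hZ'ν⟩ := hF2 (B α) _ (fun x hx => hx.1) hα
  have hνmem : ν ∈ {ν | ν ∈ Iio c.ord ∧ Pos W {x | x ∈ X ∧ B α x = F ν x}} :=
    ⟨hν, hZ'p.of_eventually (hZ'ν.mono fun x hx hxZ => ⟨(hZ' hxZ).1, hx hxZ⟩)⟩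
  obtain ⟨n, hn⟩ := hs2 α hνmem
  have hνδ : ν < δ := by
    rw [← hn]
    exact hδ2 α (hAτ α.2) n
  obtain ⟨x, hxZ, hx1, hx2⟩ := ((pos_iff_frequently.1 hZ'p).and_eventually
    (hZ'ν.and (hF1 ν δ hνδ hδ))).exists
  have h1 := hx1 hxZ
  have h2 := hx2 (hZ' hxZ).1
  have h3 := (hZ' hxZ).2
  rw [← h1] at h2
  exact absurd h2 (not_lt.2 h3)

/-- Theorem S. -/
theorem forcesImageNotCardinal_of_slaloms [W.NeBot] [CardinalInterFilter W κ]
    (hS : Setup K W κ) {P : Set K} (ρ : K → K)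
    (hP : 2 ^ ℵ₀ ≤ κ ∨ (∀ β : K, RegularUncountable β → SlalomCover κ ρ β) ∨
      ∀ β ∈ P, SlalomCover κ ρ β) :
    ForcesImageNotCardinal W P := by
  haveI : CountableInterFilter W := CardinalInterFilter.toCountableInterFilter W hS.hκ
  rcases hP with h | hP
  · exact hS.forcesImageNotCardinal fun β _ => hS.smallCover h β
  intro Y hY hYp
  obtain ⟨X, hXY, hXp, π, hπ, hd⟩ : ∃ X ⊆ Y, Pos W X ∧ ∃ π : K → K,
      (∀ γ, ∀ᶠ x in W, x ∈ X → γ < π x) ∧ ∀ x ∈ X, SlalomCover κ ρ (π x) := by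
    rcases hP with h | h
    · obtain ⟨X, hXY, hXp, π, hπ⟩ := exists_incomp hS hYp
      have hX2 : Pos W {x | x ∈ X ∧ RegularUncountable (π x)} :=
        hXp.of_eventually ((hπ.regular hS).mono fun x hx hxX => ⟨hxX, hx hxX⟩)
      exact ⟨_, fun x hx => hXY hx.1, hX2, π, fun γ => (hπ.1 γ).mono fun x hx hxX => hx hxX.1,
        fun x hx => h _ hx.2⟩
    · exact ⟨Y, Subset.rfl, hYp, id, fun γ => (hS.eventually_gt γ).mono fun x hx _ => hx,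
        fun x hx => h x (hY hx)⟩
  obtain ⟨X3, hX3, hX3p, θ, hθ⟩ := exists_forcesImageEq hS.hsat hXp
  exact ⟨X3, hX3.trans hXY, hX3p, θ, hθ, not_ord_of_slaloms hS hX3p π
    (fun γ => (hπ γ).mono fun x hx hxX => hx (hX3 hxX)) ρ (fun x hx => hd x (hX3 hx)) hθ⟩

end Pool.Agent.GUS6
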