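import Pool.Agent.Lib_helper6.GUS.Catch

open Cardinal Set Filter

universe u

namespace Pool.Agent.GUS6

open Pool.Agent.GU48

variable {K : Type u} {W : Filter K} {κ : Cardinal.{u}}
variable [LinearOrder K] [WellFoundedLT K]

omit W κ in
/-- definition by recursion along `K` -/
lemma exists_rec {Y : Type*} (P : ∀ i : K, (Iio i → Y) → Y → Prop)
    (h : ∀ i r, ∃ y, P i r y) : ∃ s : K → Y, ∀ i, P i (fun k => s k) (s i) := by
  classical
  choose c hc using h
  let s : K → Y := (wellFounded_lt (α := K)).fix fun i ih => c i fun k => ih k k.2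
  refine ⟨s, fun i => ?_⟩
  have hs : s i = c i fun k => s k := by
    simp only [s]
    rw [WellFounded.fix_eq]
  rw [hs]
  exact hc i _

/-- if `W` has few initial segments, then all `β` have a small cover -/
theorem smallCover_of_fewInitialSegments [W.NeBot] [CardinalInterFilter W κ]
    (hS : Setup K W κ) (hW : FewInitialSegments κ W) (β : K) : SmallCover κ β := by
  classical
  haveI : CountableInterFilter W := CardinalInterFilter.toCountableInterFilter W hS.hκ
  obtain ⟨T, hT, hTW⟩ := hW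
  rcases isEmpty_or_nonempty (Iio β) with hemp | hne
  · refine ⟨univ, ?_, fun f => ⟨{f}, subset_univ _, countable_singleton f,
      fun ξ => ⟨f, rfl, rfl⟩⟩⟩
    have : Finite (univ : Set (Iio β → Iio β)) := inferInstance
    exact (Cardinal.lt_aleph0_of_finite _).le.trans hS.hκ.le
  by_contra hcon
  unfold SmallCover at hcon
  push Not at hcon
  -- enumerations
  have hen : ∀ (t : Set K) (r : K → Iio β → Iio β), ∃ e : ℕ → Iio β → Iio β,
      (∀ ξ, ((fun k => r k ξ) '' t).Countable) → ∀ k ∈ t, ∀ ξ, ∃ n, e n ξ = r k ξ := by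
    intro t r
    by_cases h : ∀ ξ, ((fun k => r k ξ) '' t).Countable
    swap
    · exact ⟨fun _ ξ => ξ, fun h' => absurd h' h⟩
    have h2 : ∀ ξ, ∃ e : ℕ → Iio β, (fun k => r k ξ) '' t ⊆ range e := by
      intro ξ
      by_cases hn : ((fun k => r k ξ) '' t).Nonempty
      · obtain ⟨e, he⟩ := (h ξ).exists_eq_range hn
        exact ⟨e, he.subset⟩
      · rw [not_nonempty_iff_eq_empty] at hn
        exact ⟨fun _ => ξ, by rw [hn]; exact empty_subset _⟩
    choose e he using h2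
    refine ⟨fun n ξ => e ξ n, fun _ k hk ξ => ?_⟩
    obtain ⟨n, hn⟩ := he ξ ⟨k, hk, rfl⟩
    exact ⟨n, hn⟩
  choose e he using hen
  obtain ⟨s, hs⟩ := exists_rec (K := K) (Y := Iio β → Iio β)
    (fun i r y => ∀ t ∈ T, ∀ ht : t ⊆ Iio i,
      (∀ ξ, ((fun k : Iio i => r k ξ) '' {k | (k : K) ∈ t}).Countable) →
        ∃ ξ, ∀ k : Iio i, (k : K) ∈ t → r k ξ ≠ y ξ)
    (by
      intro i r
      let r' : K → Iio β → Iio β := fun k => if h : k < i then r ⟨k, h⟩ else fun ξ => ξ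
      let 𝓕 : Set (Iio β → Iio β) := range fun p : T × ULift.{u} ℕ => e p.1 r' p.2.down
      have h𝓕 : #𝓕 ≤ κ := by
        refine Cardinal.mk_range_le.trans ?_
        rw [Cardinal.mk_prod]
        simp only [Cardinal.lift_id, Cardinal.mk_uLift, Cardinal.mk_eq_aleph0,
          Cardinal.lift_aleph0]
        exact (mul_le_mul' hT hS.hκ.le).trans (Cardinal.mul_eq_self hS.hκ.le).le
      obtain ⟨f, hf⟩ := hcon 𝓕 h𝓕
      refine ⟨f, fun t ht hti hc => ?_⟩
      obtain ⟨ξ, hξ⟩ := hf (range fun n : ℕ => e t r' n) (by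
        rintro _ ⟨n, rfl⟩
        exact ⟨(⟨t, ht⟩, ⟨n⟩), rfl⟩) (countable_range _)
      refine ⟨ξ, fun k hk heq => ?_⟩
      have hcount : ∀ ξ, ((fun k => r' k ξ) '' t).Countable := by
        intro ζ
        refine (hc ζ).mono ?_
        rintro _ ⟨k, hk, rfl⟩
        refine ⟨⟨k, hti hk⟩, hk, ?_⟩
        have : k < i := hti hk
        simp only [r', dif_pos this]
      obtain ⟨n, hn⟩ := he t r' hcount k hk ξ
      have hki : (k : K) < i := k.2
      have h1 : r' k = r k := by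
        simp only [r', dif_pos hki]
      rw [h1, heq] at hn
      exact hξ _ ⟨n, rfl⟩ hn)
  obtain ⟨C, hC, hev⟩ := capture (κ := κ) hS.hsat (hS.hIio β) (hS.hIio β) s
  obtain ⟨Y, hYX, hYunb, hYT⟩ := hTW _ hev
  -- a bound for the witnesses
  have hw : ∀ p : Iio β × Iio β, ∃ k : K, (∃ k ∈ Y, s k p.1 = p.2) → k ∈ Y ∧ s k p.1 = p.2 := by
    intro p
    by_cases h : ∃ k ∈ Y, s k p.1 = p.2
    · obtain ⟨k, hk⟩ := h
      exact ⟨k, fun _ => hk⟩
    · exact ⟨β, fun h' => absurd h' h⟩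
  choose w hw using hw
  have hlt : #(Iio β × Iio β) < κ := by
    rw [Cardinal.mk_prod, Cardinal.lift_id]
    exact Cardinal.mul_lt_of_lt hS.hκ.le (hS.hIio β) (hS.hIio β)
  obtain ⟨b, hb⟩ : ∃ b : K, ∀ p, w p < b := by
    have : ∀ᶠ x in W, ∀ p, w p < x := by
      rw [eventually_cardinal_forall hlt]
      exact fun p => hS.eventually_gt _
    exact this.exists
  obtain ⟨i, hiY, hbi⟩ := hYunb b
  obtain ⟨ξ, hξ⟩ := hs i (Y ∩ Iio b) (hYT b) (fun x hx => lt_of_lt_of_le hx.2 hbi) (by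
    intro ξ
    refine (hC ξ).mono ?_
    rintro _ ⟨k, hk, rfl⟩
    exact hYX hk.1 ξ)
  have h1 := hw (ξ, s i ξ) ⟨i, hiY, rfl⟩
  have h2 := hb (ξ, s i ξ)
  exact hξ ⟨w (ξ, s i ξ), lt_of_lt_of_le h2 hbi⟩ ⟨h1.1, h2⟩ h1.2

end Pool.Agent.GUS6
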