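import Pool.Agent.Lib_helper6.GUS.FewInit

open Cardinal Set Filter

universe u

namespace Pool.Agent.GUS6

open Pool.Agent.GU48

variable {K : Type u} {W : Filter K} {κ : Cardinal.{u}}
variable [LinearOrder K] [WellFoundedLT K]

/-- `f` is covered by the family `𝓒` with respect to the relation `r` on the values -/
def Cov {S T : Type u} (r : T → T → Prop) (f : S → T) (𝓒 : Set (S → T)) : Prop :=
  ∀ ξ, ∃ g ∈ 𝓒, r (f ξ) (g ξ)

lemma Cov.mono {S T : Type u} {r : T → T → Prop} {f : S → T} {𝓒 𝓓 : Set (S → T)}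
    (h : Cov r f 𝓒) (h2 : 𝓒 ⊆ 𝓓) : Cov r f 𝓓 := by
  intro ξ
  obtain ⟨g, hg, hr⟩ := h ξ
  exact ⟨g, h2 hg, hr⟩

omit W κ [LinearOrder K] [WellFoundedLT K] in
/-- the closure of a point under countably valued operations is countable -/
lemma exists_closure {M : Type u} (P : M → Set M) (hP : ∀ m, (P m).Countable) (i : M) :
    ∃ Q : Set M, i ∈ Q ∧ Q.Countable ∧ ∀ m ∈ Q, P m ⊆ Q := by
  let S : ℕ → Set M := fun n => Nat.rec {i} (fun _ s => ⋃ m ∈ s, P m) n
  have hS0 : S 0 = {i} := rfl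
  have hS1 : ∀ n, S (n + 1) = ⋃ m ∈ S n, P m := fun n => rfl
  have hc : ∀ n, (S n).Countable := by
    intro n
    induction n with
    | zero => rw [hS0]; exact countable_singleton i
    | succ n ih =>
      rw [hS1]
      exact ih.biUnion fun m _ => hP m
  refine ⟨⋃ n, S n, mem_iUnion.2 ⟨0, by rw [hS0]; rfl⟩, countable_iUnion hc, ?_⟩
  intro m hm x hx
  obtain ⟨n, hn⟩ := mem_iUnion.1 hm
  refine mem_iUnion.2 ⟨n + 1, ?_⟩
  rw [hS1]
  exact mem_biUnion hn hx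

/-- If, for some fixed index set `M` of size `< κ`, every family of fewer than `κ` functions
is countably covered by a family indexed by `M`, then the set of all functions is countably
covered by a family of size at most `κ`. -/
theorem exists_cover_of_local [W.NeBot] [CardinalInterFilter W κ] (hS : Setup K W κ)
    {S T : Type u} (hSκ : #S < κ) (hTκ : #T < κ) (r : T → T → Prop)
    (hrefl : ∀ t, r t t) (htrans : ∀ a b c, r a b → r b c → r a c) {M : Type u} (hM : #M < κ)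
    (hloc : ∀ A : Set (S → T), #A < κ → ∃ d : M → S → T,
      ∀ f ∈ A, ∃ I : Set M, I.Countable ∧ Cov r f (d '' I)) :
    ∃ 𝓕 : Set (S → T), #𝓕 ≤ κ ∧ ∀ f : S → T, ∃ 𝓒 ⊆ 𝓕, 𝓒.Countable ∧ Cov r f 𝓒 := by
  classical
  haveI : CountableInterFilter W := CardinalInterFilter.toCountableInterFilter W hS.hκ
  rcases isEmpty_or_nonempty S with hemp | hSne
  · exact ⟨∅, by simp, fun f => ⟨∅, Subset.rfl, countable_empty, fun ξ => hemp.elim ξ⟩⟩
  rcases isEmpty_or_nonempty T with hemp | hTne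
  · exact ⟨∅, by simp, fun f => hemp.elim (f (Classical.arbitrary S))⟩
  by_contra hcon
  push Not at hcon
  -- the recursive construction
  obtain ⟨s, hs⟩ := exists_rec (K := K) (Y := (S → T) × (M → S → T))
    (fun i q y => (∀ 𝓒 ⊆ {g | ∃ (k : Iio i) (m : M), (q k).2 m = g}, 𝓒.Countable →
        ¬ Cov r y.1 𝓒) ∧
      (∃ I : Set M, I.Countable ∧ Cov r y.1 (y.2 '' I)) ∧
      ∀ (k : Iio i) (m : M), ∃ I : Set M, I.Countable ∧ Cov r ((q k).2 m) (y.2 '' I))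
    (by
      intro i q
      have hcard : #(Iio i × M) < κ := by
        rw [Cardinal.mk_prod, Cardinal.lift_id, Cardinal.lift_id]
        exact Cardinal.mul_lt_of_lt hS.hκ.le (hS.hIio i) hM
      have h1 : #{g | ∃ (k : Iio i) (m : M), (q k).2 m = g} < κ := by
        have : {g | ∃ (k : Iio i) (m : M), (q k).2 m = g} =
            range fun p : Iio i × M => (q p.1).2 p.2 := by
          ext g
          constructor
          · rintro ⟨k, m, h⟩
            exact ⟨(k, m), h⟩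
          · rintro ⟨p, h⟩
            exact ⟨p.1, p.2, h⟩
        rw [this]
        exact Cardinal.mk_range_le.trans_lt hcard
      obtain ⟨f, hf⟩ := hcon _ h1.le
      obtain ⟨d, hd⟩ := hloc (insert f {g | ∃ (k : Iio i) (m : M), (q k).2 m = g})
        (Cardinal.mk_insert_le.trans_lt
          (add_lt_of_lt hS.hκ.le h1 (one_lt_aleph0.trans hS.hκ)))
      refine ⟨(f, d), hf, hd f (mem_insert _ _), fun k m => hd _ (mem_insert_of_mem _ ?_)⟩
      exact ⟨k, m, rfl⟩)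
  have hMne : Nonempty M := by
    by_contra hM0
    rw [not_nonempty_iff] at hM0
    obtain ⟨i, _⟩ := (Filter.univ_mem : (univ : Set K) ∈ W) |> Filter.nonempty_of_mem
    obtain ⟨_, ⟨I, _, hI⟩, _⟩ := hs i
    obtain ⟨g, ⟨m, _⟩, _⟩ := hI (Classical.arbitrary S)
    exact hM0.elim m
  -- indices of covers
  have hπ : ∀ (k l : K) (m : M), ∃ π : ℕ → M, k < l →
      Cov r ((s k).2 m) (range fun n => (s l).2 (π n)) := by
    intro k l m
    by_cases hkl : k < l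
    swap
    · exact ⟨fun _ => m, fun h => absurd h hkl⟩
    obtain ⟨I, hI, hc⟩ := (hs l).2.2 ⟨k, hkl⟩ m
    have hIne : I.Nonempty := by
      obtain ⟨g, ⟨m', hm', _⟩, _⟩ := hc (Classical.arbitrary S)
      exact ⟨m', hm'⟩
    obtain ⟨π, hπ⟩ := hI.exists_eq_range hIne
    refine ⟨π, fun _ => hc.mono ?_⟩
    rintro _ ⟨m', hm', rfl⟩
    rw [hπ] at hm'
    obtain ⟨n, rfl⟩ := hm'
    exact ⟨n, rfl⟩
  choose π hπ using hπ
  have hMN : #(M × ULift.{u} ℕ) < κ := by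
    rw [Cardinal.mk_prod]
    simp only [Cardinal.lift_id, Cardinal.mk_uLift, Cardinal.mk_eq_aleph0, Cardinal.lift_aleph0]
    exact Cardinal.mul_lt_of_lt hS.hκ.le hM hS.hκ
  have hcap1 : ∀ k : K, ∃ ρ : M → ℕ → ℕ → M, ∀ᶠ l in W, ∀ m n, ∃ j, π k l m n = ρ m n j := by
    intro k
    obtain ⟨C, hC, hev⟩ := capture (κ := κ) hS.hsat hMN hM
      (fun l (p : M × ULift.{u} ℕ) => π k l p.1 p.2.down)
    have hne : ∀ p, (C p).Nonempty := by
      intro p
      obtain ⟨l, hl⟩ := hev.exists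
      exact ⟨_, hl p⟩
    choose e he using fun p => (hC p).exists_eq_range (hne p)
    refine ⟨fun m n j => e (m, ⟨n⟩) j, hev.mono fun l hl m n => ?_⟩
    have := hl (m, ⟨n⟩)
    rw [he] at this
    obtain ⟨j, hj⟩ := this
    exact ⟨j, hj.symm⟩
  choose ρ hρ using hcap1
  have hMNN : #(M × ULift.{u} (ℕ × ℕ)) < κ := by
    rw [Cardinal.mk_prod]
    simp only [Cardinal.lift_id, Cardinal.mk_uLift, Cardinal.mk_eq_aleph0, Cardinal.lift_aleph0]
    exact Cardinal.mul_lt_of_lt hS.hκ.le hM hS.hκ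
  obtain ⟨C, hC, hev⟩ := capture (κ := κ) hS.hsat hMNN hM
    (fun k (p : M × ULift.{u} (ℕ × ℕ)) => ρ k p.1 p.2.down.1 p.2.down.2)
  let P : M → Set M := fun m => ⋃ q : ℕ × ℕ, C (m, ⟨q⟩)
  have hP : ∀ m, (P m).Countable := fun m => countable_iUnion fun q => hC _
  -- almost all pairs are good
  have hgood : ∀ᶠ k in W, ∀ᶠ l in W, k < l ∧ ∀ m, Cov r ((s k).2 m) ((s l).2 '' P m) := by
    filter_upwards [hev] with k hk
    filter_upwards [hρ k, hS.eventually_gt k] with l hl hkl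
    refine ⟨hkl, fun m => (hπ k l m hkl).mono ?_⟩
    rintro _ ⟨n, rfl⟩
    obtain ⟨j, hj⟩ := hl m n
    refine ⟨π k l m n, mem_iUnion.2 ⟨(n, j), ?_⟩, rfl⟩
    rw [hj]
    exact hk (m, ⟨(n, j)⟩)
  let A : Set K := {k | ∀ᶠ l in W, k < l ∧ ∀ m, Cov r ((s k).2 m) ((s l).2 '' P m)}
  -- a good subsequence
  obtain ⟨x, hx⟩ := exists_rec (K := K) (Y := K)
    (fun i q y => (∀ k, q k ∈ A) → y ∈ A ∧ ∀ k : Iio i,
      q k < y ∧ ∀ m, Cov r ((s (q k)).2 m) ((s y).2 '' P m))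
    (by
      intro i q
      by_cases hq : ∀ k, q k ∈ A
      · have h1 : ∀ᶠ y in W, ∀ k : Iio i,
            q k < y ∧ ∀ m, Cov r ((s (q k)).2 m) ((s y).2 '' P m) := by
          rw [eventually_cardinal_forall (hS.hIio i)]
          exact fun k => hq k
        obtain ⟨y, hy1, hy2⟩ := (hgood.and h1).exists
        exact ⟨y, fun _ => ⟨hy1, hy2⟩⟩
      · exact ⟨i, fun h => absurd h hq⟩)
  have hxA : ∀ i, x i ∈ A := by
    intro i
    induction i using WellFoundedLT.induction with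
    | ind i ih => exact (hx i (fun k => ih k k.2)).1
  have hxg : ∀ k i, k < i → x k < x i ∧ ∀ m, Cov r ((s (x k)).2 m) ((s (x i)).2 '' P m) :=
    fun k i hki => (hx i (fun k => hxA k)).2 ⟨k, hki⟩
  -- stabilisation
  choose Q hQ1 hQ2 hQ3 using exists_closure P hP
  have hmono : ∀ k i, k < i → ∀ m, ∀ q ∈ Q m, Cov r ((s (x k)).2 q) ((s (x i)).2 '' Q m) := by
    intro k i hki m q hq
    exact ((hxg k i hki).2 q).mono (image_mono (hQ3 m q hq))
  have hw : ∀ p : (M × S) × T, ∃ k : K, (∃ k, ∃ q ∈ Q p.1.1, r p.2 ((s (x k)).2 q p.1.2)) →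
      ∃ q ∈ Q p.1.1, r p.2 ((s (x k)).2 q p.1.2) := by
    intro p
    by_cases h : ∃ k, ∃ q ∈ Q p.1.1, r p.2 ((s (x k)).2 q p.1.2)
    · obtain ⟨k, hk⟩ := h
      exact ⟨k, fun _ => hk⟩
    · obtain ⟨i, _⟩ := (Filter.univ_mem : (univ : Set K) ∈ W) |> Filter.nonempty_of_mem
      exact ⟨i, fun h' => absurd h' h⟩
  choose w hw using hw
  have hMST : #((M × S) × T) < κ := by
    rw [Cardinal.mk_prod, Cardinal.mk_prod]
    simp only [Cardinal.lift_id]
    exact Cardinal.mul_lt_of_lt hS.hκ.le (Cardinal.mul_lt_of_lt hS.hκ.le hM hSκ) hTκ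
  obtain ⟨b, hb⟩ : ∃ b : K, ∀ p, w p < b := by
    have : ∀ᶠ y in W, ∀ p, w p < y := by
      rw [eventually_cardinal_forall hMST]
      exact fun p => hS.eventually_gt _
    exact this.exists
  have hstab : ∀ k m, ∀ ξ : S, ∀ v : T, (∃ q ∈ Q m, r v ((s (x k)).2 q ξ)) →
      ∃ q ∈ Q m, r v ((s (x b)).2 q ξ) := by
    intro k m ξ v hv
    obtain ⟨q, hq, hr⟩ := hw ((m, ξ), v) ⟨k, hv⟩
    obtain ⟨g, ⟨q', hq', rfl⟩, hr'⟩ := hmono _ b (hb ((m, ξ), v)) m q hq ξ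
    exact ⟨q', hq', htrans _ _ _ hr hr'⟩
  -- the contradiction
  obtain ⟨i, hi⟩ := (hS.eventually_gt b).exists
  obtain ⟨I, hI, hcov⟩ := (hs (x i)).2.1
  refine (hs (x i)).1 ((s (x b)).2 '' ⋃ m ∈ I, Q m) ?_ ?_ ?_
  · rintro _ ⟨q, _, rfl⟩
    exact ⟨⟨x b, (hxg b i hi).1⟩, q, rfl⟩
  · exact (hI.biUnion fun m _ => hQ2 m).image _
  · intro ξ
    obtain ⟨g, ⟨m, hm, rfl⟩, hr⟩ := hcov ξ
    obtain ⟨q, hq, hr'⟩ := hstab i m ξ _ ⟨m, hQ1 m, hrefl _⟩
    exact ⟨_, ⟨q, mem_biUnion hm hq, rfl⟩, htrans _ _ _ hr hr'⟩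

end Pool.Agent.GUS6
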