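import Pool.Agent.Lib_helper6.GUS.Local
import Pool.Agent.Lib_helper6.GUS.Dom

open Cardinal Set Filter

universe u

namespace Pool.Agent.GUS6

open Pool.Agent.GU48

variable {K : Type u} {W : Filter K} {κ : Cardinal.{u}}
variable [LinearOrder K] [WellFoundedLT K]

omit W [LinearOrder K] [WellFoundedLT K] κ in
/-- a nonempty index type for a small family -/
lemma exists_index {Y : Type u} [Nonempty Y] {M : Type u} [Nonempty M] {B : Set Y}
    (hB : #B ≤ #M) : ∃ (d : M → Y) (i : Y → M), ∀ g ∈ B, d (i g) = g := by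
  classical
  obtain ⟨i⟩ : Nonempty (B ↪ M) := hB
  refine ⟨fun m => if h : ∃ g : B, i g = m then (h.choose : Y) else Classical.arbitrary Y,
    fun g => if h : g ∈ B then i ⟨g, h⟩ else Classical.arbitrary M, fun g hg => ?_⟩
  have hex : ∃ g' : B, i g' = i ⟨g, hg⟩ := ⟨⟨g, hg⟩, rfl⟩
  have heq : hex.choose = ⟨g, hg⟩ := i.injective hex.choose_spec
  simp only [dif_pos hg, dif_pos hex]
  rw [heq]

theorem smallCover_of_localCover [W.NeBot] [CardinalInterFilter W κ] (hS : Setup K W κ) {β : K}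
    (h : LocalCover κ β) : SmallCover κ β := by
  classical
  obtain ⟨μ, hμ, hloc⟩ := h
  rcases isEmpty_or_nonempty (Iio β) with hemp | hne
  · refine ⟨univ, ?_, fun f => ⟨{f}, subset_univ _, countable_singleton f,
      fun ξ => ⟨f, rfl, rfl⟩⟩⟩
    have : Finite (univ : Set (Iio β → Iio β)) := inferInstance
    exact (Cardinal.lt_aleph0_of_finite _).le.trans hS.hκ.le
  haveI : Nonempty (Iio β → Iio β) := ⟨id⟩
  have hM : #((max μ 1).out) = max μ 1 := Cardinal.mk_out _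
  haveI : Nonempty (max μ 1).out := by
    rw [← Cardinal.mk_ne_zero_iff, hM]
    exact (zero_lt_one.trans_le (le_max_right _ _)).ne'
  obtain ⟨𝓕, h𝓕, hcov⟩ := exists_cover_of_local hS (hS.hIio β) (hS.hIio β)
    (fun a b : Iio β => b = a) (fun _ => rfl) (fun a b c h1 h2 => h2.trans h1)
    (M := (max μ 1).out) (by
      rw [hM]
      exact max_lt hμ (one_lt_aleph0.trans hS.hκ)) (by
      intro A hA
      obtain ⟨B, hB, hB2⟩ := hloc A hA
      obtain ⟨d, i, hdi⟩ := exists_index (M := (max μ 1).out) (B := B)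
        (by rw [hM]; exact hB.trans (le_max_left _ _))
      refine ⟨d, fun f hf => ?_⟩
      obtain ⟨𝓒, h𝓒, hc, hcv⟩ := hB2 f hf
      refine ⟨i '' 𝓒, hc.image _, fun ξ => ?_⟩
      obtain ⟨g, hg, hgf⟩ := hcv ξ
      exact ⟨d (i g), ⟨i g, ⟨g, hg, rfl⟩, rfl⟩, by rw [hdi g (h𝓒 hg)]; exact hgf⟩)
  exact ⟨𝓕, h𝓕, fun f => by
    obtain ⟨𝓒, h1, h2, h3⟩ := hcov f
    exact ⟨𝓒, h1, h2, h3⟩⟩

/-- a small cover is a slalom cover of width one -/
lemma slalomCover_of_smallCover {β k : K} (hk : (Iio k).Nonempty)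
    (h : SmallCover κ β) : SlalomCover κ (fun _ => k) β := by
  classical
  obtain ⟨𝓕, h𝓕, hcov⟩ := h
  refine ⟨(fun g ξ => {g ξ}) '' 𝓕, Cardinal.mk_image_le.trans h𝓕, ?_, ?_⟩
  · rintro _ ⟨g, _, rfl⟩ ξ
    rw [Cardinal.mk_singleton]
    haveI : Nonempty (Iio k) := hk.to_subtype
    exact Cardinal.one_le_iff_ne_zero.2 (Cardinal.mk_ne_zero _)
  · intro f
    obtain ⟨𝓒, h1, h2, h3⟩ := hcov f
    refine ⟨(fun g ξ => {g ξ}) '' 𝓒, image_mono h1, h2.image _, fun ξ => ?_⟩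
    obtain ⟨g, hg, hgf⟩ := h3 ξ
    exact ⟨_, ⟨g, hg, rfl⟩, hgf.symm⟩

/-- Theorem L. -/
theorem forcesImageNotCardinal_of_local [W.NeBot] [CardinalInterFilter W κ]
    (hS : Setup K W κ) {P : Set K}
    (hP : (∀ β : K, RegularUncountable β → LocalCover κ β) ∨ ∀ β ∈ P, LocalCover κ β) :
    ForcesImageNotCardinal W P := by
  obtain ⟨k0, _⟩ := (Filter.univ_mem : (univ : Set K) ∈ W) |> Filter.nonempty_of_mem
  obtain ⟨k, hk⟩ := (hS.eventually_gt k0).exists
  refine forcesImageNotCardinal_of_slaloms hS (fun _ => k) (Or.inr ?_)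
  rcases hP with h | h
  · exact Or.inl fun β hβ =>
      slalomCover_of_smallCover ⟨k0, hk⟩ (smallCover_of_localCover hS (h β hβ))
  · exact Or.inr fun β hβ =>
      slalomCover_of_smallCover ⟨k0, hk⟩ (smallCover_of_localCover hS (h β hβ))

/-- the bounded slaloms of a regular `β` from the local dominating property -/
lemma exists_bounded_slaloms_local [W.NeBot] [CardinalInterFilter W κ] (hS : Setup K W κ)
    {β : K} (hreg : RegularUncountable β) (hd : LocalDominating κ β) :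
    ∃ 𝓕 : Set (Iio β → Set (Iio β)), #𝓕 ≤ κ ∧ Catching 𝓕 ∧
      ∀ S ∈ 𝓕, ∀ ξ, ∃ b : Iio β, ∀ v ∈ S ξ, v ≤ b := by
  classical
  obtain ⟨μ, hμ, hloc⟩ := hd
  have hne : Nonempty (Iio β) := by
    by_contra hcon
    rw [not_nonempty_iff] at hcon
    exact hreg.1 (Set.to_countable _)
  haveI : Nonempty (Iio β → Iio β) := ⟨id⟩
  have hM : #((max μ 1).out) = max μ 1 := Cardinal.mk_out _
  haveI : Nonempty (max μ 1).out := by
    rw [← Cardinal.mk_ne_zero_iff, hM]
    exact (zero_lt_one.trans_le (le_max_right _ _)).ne'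
  obtain ⟨𝓕, h𝓕, hcov⟩ := exists_cover_of_local hS (hS.hIio β) (hS.hIio β)
    (fun a b : Iio β => a ≤ b) (fun _ => le_rfl) (fun a b c h1 h2 => h1.trans h2)
    (M := (max μ 1).out × Iio β) (by
      rw [Cardinal.mk_prod, Cardinal.lift_id, Cardinal.lift_id, hM]
      exact Cardinal.mul_lt_of_lt hS.hκ.le (max_lt hμ (one_lt_aleph0.trans hS.hκ))
        (hS.hIio β)) (by
      intro A hA
      obtain ⟨B, hB, hB2⟩ := hloc A hA
      obtain ⟨d, i, hdi⟩ := exists_index (M := (max μ 1).out) (B := B)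
        (by rw [hM]; exact hB.trans (le_max_left _ _))
      refine ⟨fun p ξ => max (d p.1 ξ) p.2, fun f hf => ?_⟩
      obtain ⟨g, hg, η, hη⟩ := hB2 f hf
      obtain ⟨c, hc⟩ := hreg.2 η η.2 (fun ξ : Iio (η : K) => f ⟨ξ, lt_trans ξ.2 η.2⟩)
      refine ⟨{(i g, c)}, countable_singleton _, fun ξ => ⟨_, ⟨(i g, c), rfl, rfl⟩, ?_⟩⟩
      simp only [hdi g hg]
      rcases lt_or_ge ξ η with h | h
      · exact le_max_of_le_right (hc ⟨ξ, h⟩).le
      · exact le_max_of_le_left (hη ξ h))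
  refine ⟨(fun g ξ => Iic (g ξ)) '' 𝓕, Cardinal.mk_image_le.trans h𝓕, ?_, ?_⟩
  · intro f
    obtain ⟨𝓒, h1, h2, h3⟩ := hcov f
    refine ⟨(fun g ξ => Iic (g ξ)) '' 𝓒, image_mono h1, h2.image _, fun ξ => ?_⟩
    obtain ⟨g, hg, hgf⟩ := h3 ξ
    exact ⟨_, ⟨g, hg, rfl⟩, hgf⟩
  · rintro _ ⟨g, _, rfl⟩ ξ
    exact ⟨g ξ, fun v hv => hv⟩

/-- Theorem D. -/
theorem forcesImageNotRegular [W.NeBot] [CardinalInterFilter W κ] (hS : Setup K W κ)
    {P : Set K} (hP : (∀ β : K, RegularUncountable β → (DominatingNumberLe κ β ∨ LocalDominating κ β)) ∨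
      (IsNormal W ∧ ∀ β ∈ P, RegularUncountable β → (DominatingNumberLe κ β ∨ LocalDominating κ β))) :
    ForcesImageNotRegular W P := by
  haveI : CountableInterFilter W := CardinalInterFilter.toCountableInterFilter W hS.hκ
  intro Y hY hYp
  -- an incompressible function whose values have small dominating number
  obtain ⟨X, hXY, hXp, π, hπ, hd⟩ : ∃ X ⊆ Y, Pos W X ∧ ∃ π : K → K, Incomp W π X ∧
      ∀ x ∈ X, RegularUncountable (π x) →
        (DominatingNumberLe κ (π x) ∨ LocalDominating κ (π x)) := by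
    rcases hP with h | ⟨hW, h⟩
    · obtain ⟨X, hXY, hXp, π, hπ⟩ := exists_incomp hS hYp
      exact ⟨X, hXY, hXp, π, hπ, fun x _ hx => h _ hx⟩
    · exact ⟨Y, Subset.rfl, hYp, id, incomp_id hS hW Y, fun x hx => h x (hY hx)⟩
  have hreg := hπ.regular hS
  have hX2 : Pos W {x | x ∈ X ∧ RegularUncountable (π x)} :=
    hXp.of_eventually (hreg.mono fun x hx hxX => ⟨hxX, hx hxX⟩)
  obtain ⟨X3, hX3, hX3p, θ, hθ⟩ := exists_forcesImageEq hS.hsat hX2
  refine ⟨X3, fun x hx => hXY (hX3 hx).1, hX3p, θ, hθ, fun c hc => ?_⟩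
  refine not_regular_of_bounded_slaloms hS hX3p (hπ.mono fun x hx => (hX3 hx).1)
    (fun x hx => ?_) hθ c hc
  rcases hd x (hX3 hx).1 (hX3 hx).2 with h | h
  · exact exists_bounded_slaloms hS (hX3 hx).2 h
  · exact exists_bounded_slaloms_local hS (hX3 hx).2 h

end Pool.Agent.GUS6
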