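import Pool.Agent.Lib_helper6.GUS.Catch

open Cardinal Set Filter

universe u

namespace Pool.Agent.GUS6

open Pool.Agent.GU48

variable {K : Type u} {W : Filter K} {κ : Cardinal.{u}}
variable [LinearOrder K] [WellFoundedLT K]

/-- the cardinality bounds behind the main argument -/
lemma card_le_of_map {S : Type*} (hsat : OmegaOneSaturated W)
    {T : Type*} (B : S → T → Set K)
    (hdisj : ∀ v w : S, v ≠ w → ∀ p, ¬ Pos W (B v p ∩ B w p))
    (φ : S → T) (hφ : ∀ v : S, Pos W (B v (φ v))) (p : T) :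
    (φ ⁻¹' {p}).Countable := by
  refine (countable_pos_of_almostDisjoint hsat (fun v => B v p) univ
    (fun v _ w _ h => hdisj v w h p)).mono ?_
  intro v hv
  have : φ v = p := hv
  exact ⟨mem_univ _, this ▸ hφ v⟩

/-- `j_W(κ)` is uncountable -/
lemma aleph0_lt_of_forces [CountableInterFilter W] (hS : Setup K W κ) {X : Set K}
    (hX : Pos W X) {c : Cardinal.{u}} {F : Ordinal.{u} → K → K}
    (hF2 : ∀ g : K → K, ∀ Y ⊆ X, Pos W Y → ∃ Z ⊆ Y, Pos W Z ∧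
      ∃ α < c.ord, ∀ᶠ x in W, x ∈ Z → g x = F α x) : ℵ₀ < c := by
  by_contra hcon
  push Not at hcon
  have h1 : ∀ k : K, ∃ α : Iio c.ord, Pos W {x | x ∈ X ∧ k = F α x} := by
    intro k
    obtain ⟨Z, hZ, hZp, α, hα, hZα⟩ := hF2 (fun _ => k) X Subset.rfl hX
    exact ⟨⟨α, hα⟩, hZp.of_eventually (hZα.mono fun x hx hxZ => ⟨hZ hxZ, hx hxZ⟩)⟩
  choose φ hφ using h1
  have h2 : (univ : Set K).Countable := by
    have h3 : (univ : Set K) ⊆ ⋃ α : Iio c.ord, {k | Pos W {x | x ∈ X ∧ F α x = k}} := by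
      intro k _
      refine mem_iUnion.2 ⟨φ k, ?_⟩
      have := hφ k
      refine this.mono fun x hx => ⟨hx.1, hx.2.symm⟩
    refine Countable.mono h3 ?_
    haveI : Countable (Iio c.ord) := by
      rw [← Cardinal.mk_le_aleph0_iff, Cardinal.mk_Iio_ordinal, Cardinal.card_ord,
        Cardinal.lift_le_aleph0]
      exact hcon
    exact countable_iUnion fun α => countable_values hS.hsat X (F α)
  have h4 : #K ≤ ℵ₀ := by
    rw [← Cardinal.mk_univ]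
    exact Cardinal.le_aleph0_iff_set_countable.2 h2
  rw [hS.hK] at h4
  exact absurd hS.hκ (not_lt.2 h4)

/-- a condition below which the values of a function tending to `κ` have small slalom covers
cannot force `j_W(κ)` to be a cardinal. -/
theorem not_ord_of_slaloms [W.NeBot] [CardinalInterFilter W κ] (hS : Setup K W κ) {X : Set K}
    (hX : Pos W X) (π : K → K) (hπ : ∀ γ, ∀ᶠ x in W, x ∈ X → γ < π x) (ρ : K → K)
    (hcov : ∀ x ∈ X, SlalomCover κ ρ (π x)) {θ : Ordinal.{u}}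
    (hF : ForcesImageEq W X θ) (c : Cardinal.{u}) : θ ≠ c.ord := by
  classical
  haveI : CountableInterFilter W := CardinalInterFilter.toCountableInterFilter W hS.hκ
  rintro rfl
  obtain ⟨F, hF1, hF2⟩ := hF
  have hsat := hS.hsat
  haveI : Nonempty K := ⟨hX.nonempty.some⟩
  have hc : ℵ₀ < c := aleph0_lt_of_forces hS hX hF2
  -- the slaloms
  have hfam : ∀ x : K, ∃ 𝓕 : Set (Iio (π x) → Set (Iio (π x))), x ∈ X → #𝓕 ≤ κ ∧
      (∀ S ∈ 𝓕, ∀ ξ : Iio (π x), #(S ξ) ≤ #(Iio (ρ ξ))) ∧ Catching 𝓕 := by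
    intro x
    by_cases hx : x ∈ X
    · obtain ⟨𝓕, h1, h2, h3⟩ := hcov x hx
      exact ⟨𝓕, fun _ => ⟨h1, h2, h3⟩⟩
    · exact ⟨∅, fun h => absurd h hx⟩
  choose 𝓕 h𝓕 using hfam
  obtain ⟨G, hG, Z, hZX, hZp, τ, hτ, hcatch⟩ := exists_catch hS hX π hπ 𝓕
    (fun x hx => (h𝓕 x hx).1) (fun x hx => (h𝓕 x hx).2.2) hF1 hF2
  -- enumerations of the slaloms
  have hE : ∀ x j ξ, ∃ E : K → K, x ∈ X → ∀ v ∈ G x j ξ, ∃ i < ρ ξ, E i = v := by
    intro x j ξ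
    by_cases hx : x ∈ X
    swap
    · exact ⟨id, fun h => absurd h hx⟩
    rcases hG x j ξ with h | ⟨S, hS1, hξ, h⟩
    · exact ⟨id, fun _ v hv => by rw [h] at hv; exact absurd hv (notMem_empty v)⟩
    · have hle : #(G x j ξ) ≤ #(Iio (ρ ξ)) := by
        rw [h]
        exact Cardinal.mk_image_le.trans ((h𝓕 x hx).2.1 S hS1 ⟨ξ, hξ⟩)
      obtain ⟨i⟩ : Nonempty (G x j ξ ↪ Iio (ρ ξ)) := hle
      refine ⟨fun k => if h : ∃ v : G x j ξ, (i v : K) = k then (h.choose : K) else k,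
        fun _ v hv => ⟨i ⟨v, hv⟩, (i ⟨v, hv⟩).2, ?_⟩⟩
      have hex : ∃ w : G x j ξ, (i w : K) = i ⟨v, hv⟩ := ⟨⟨v, hv⟩, rfl⟩
      have heq : hex.choose = ⟨v, hv⟩ := i.injective (Subtype.ext hex.choose_spec)
      simp only [dif_pos hex]
      rw [heq]
  choose E hE using hE
  -- the likely values
  have hen : ∀ α ξ i, ∃ e : ℕ → K, {v | Pos W {x | x ∈ Z ∧ E x (F α x) ξ i = v}} ⊆ range e := by
    intro α ξ i
    have hcount : {v | Pos W {x | x ∈ Z ∧ E x (F α x) ξ i = v}}.Countable :=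
      countable_values hsat Z _
    by_cases h : {v | Pos W {x | x ∈ Z ∧ E x (F α x) ξ i = v}}.Nonempty
    · obtain ⟨e, he⟩ := hcount.exists_eq_range h
      exact ⟨e, he.subset⟩
    · rw [not_nonempty_iff_eq_empty] at h
      exact ⟨fun _ => ξ, by rw [h]; exact empty_subset _⟩
  choose e he using hen
  have hcatch2 : ∀ f : K → K, ∃ A : Set Ordinal.{u}, A ⊆ Iio τ ∧
        A.Countable ∧ ∀ ξ, ∃ α ∈ A, ∃ i < ρ ξ, ∃ n, e α ξ i n = f ξ := by
    intro f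
    obtain ⟨A, hA1, hA2, hA3⟩ := hcatch f
    refine ⟨A, hA1, hA2, fun ξ => ?_⟩
    obtain ⟨α, hα, hp⟩ := hA3 ξ
    have hsub : {x | x ∈ Z ∧ f ξ ∈ G x (F α x) ξ} ⊆
        ⋃ i : Iio (ρ ξ), {x | x ∈ Z ∧ E x (F α x) ξ i = f ξ} := by
      rintro x ⟨hx1, hx2⟩
      obtain ⟨i, hi, hi2⟩ := hE x (F α x) ξ (hZX hx1) _ hx2
      exact mem_iUnion.2 ⟨⟨i, hi⟩, hx1, hi2⟩
    obtain ⟨i, hi⟩ := exists_pos_of_pos_iUnion (hS.hIio (ρ ξ)) (hp.mono hsub)
    obtain ⟨n, hn⟩ := he α ξ i hi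
    exact ⟨α, hα, i, i.2, n, hn⟩
  -- the width
  obtain ⟨X', hX'X, hX'p, σ, hσ, hX'σ⟩ := hF2 ρ X Subset.rfl hX
  let B : Iio c.ord → (Iio τ × Iio σ × ℕ) → Set K := fun v p =>
    {x | x ∈ X ∧ e p.1 x (F p.2.1 x) p.2.2 = F v x}
  have hex : ∀ v : Iio c.ord, ∃ p, Pos W (B v p) := by
    intro v
    obtain ⟨A, hAτ, hAc, hA⟩ := hcatch2 (F v)
    haveI : Countable A := hAc.to_subtype
    choose a ha i hi n hn using hA
    have hsub : X' ⊆ ⋃ p : A × ℕ, {x | x ∈ X' ∧ e p.1 x (i x) p.2 = F v x} := by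
      intro x hx
      exact mem_iUnion.2 ⟨(⟨a x, ha x⟩, n x), hx, hn x⟩
    obtain ⟨p, hp⟩ := exists_pos_of_pos_iUnion_nat (hX'p.mono hsub)
    obtain ⟨Z', hZ', hZ'p, ι, hι, hZ'ι⟩ := hF2 i _ (fun x hx => hX'X hx.1) hp
    have hισ : ι < σ := by
      refine index_lt hF1 hι (fun x hx => hX'X (hZ' hx).1) hZ'p ?_
      filter_upwards [hZ'ι, hX'σ] with x h1 h2 hx
      rw [← h1 hx, ← h2 (hZ' hx).1]
      exact hi x
    refine ⟨(⟨p.1, hAτ p.1.2⟩, ⟨ι, hισ⟩, p.2), ?_⟩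
    refine hZ'p.of_eventually (hZ'ι.mono fun x hx hxZ => ⟨hX'X (hZ' hxZ).1, ?_⟩)
    have := (hZ' hxZ).2
    simp only
    rw [← hx hxZ]
    exact this
  choose φ hφ using hex
  have hle : #(Iio c.ord) ≤ #(Iio τ × Iio σ × ℕ) * ℵ₀ := by
    refine Cardinal.mk_le_mk_mul_of_mk_preimage_le φ fun p => ?_
    rw [Cardinal.le_aleph0_iff_set_countable]
    refine card_le_of_map hsat B ?_ φ hφ p
    intro v w hvw p
    exact not_pos_inter hF1 (fun x => e p.1 x (F p.2.1 x) p.2.2) X Subset.rfl v v.2 w w.2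
      (fun h => hvw (Subtype.ext h))
  have hprod : #(Iio τ × Iio σ × ℕ) =
      Cardinal.lift.{u + 1} τ.card * (Cardinal.lift.{u + 1} σ.card * ℵ₀) := by
    rw [Cardinal.mk_prod, Cardinal.mk_prod, Cardinal.mk_Iio_ordinal, Cardinal.mk_Iio_ordinal]
    simp
  rw [hprod, Cardinal.mk_Iio_ordinal, Cardinal.card_ord] at hle
  have hτc : Cardinal.lift.{u + 1} τ.card < Cardinal.lift.{u + 1} c := by
    rw [Cardinal.lift_lt]
    exact Cardinal.lt_ord.1 hτ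
  have hσc : Cardinal.lift.{u + 1} σ.card < Cardinal.lift.{u + 1} c := by
    rw [Cardinal.lift_lt]
    exact Cardinal.lt_ord.1 hσ
  have hcl : ℵ₀ < Cardinal.lift.{u + 1} c := by
    rw [Cardinal.aleph0_lt_lift]
    exact hc
  have : Cardinal.lift.{u + 1} τ.card * (Cardinal.lift.{u + 1} σ.card * ℵ₀) * ℵ₀
      < Cardinal.lift.{u + 1} c :=
    Cardinal.mul_lt_of_lt hcl.le (Cardinal.mul_lt_of_lt hcl.le hτc
      (Cardinal.mul_lt_of_lt hcl.le hσc hcl)) hcl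
  exact absurd this (not_lt.2 hle)

end Pool.Agent.GUS6
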